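import Mathlib
import Pool.Agent.Q47.SP.Defs
import Pool.Agent.Q47.SP.Poly

/-!
# Three symplectic additive subgroups acting infinitely transitively (MP_e86abc_ag)

Q1 is answered positively: for every `n ≥ 2`, every field `K` of characteristic zero (algebraically
closed or not) and every nondegenerate alternating form `ω` on `K^{2n}` there are three
`𝔾ₐ`-subgroups `U 0, U 1, U 2` of the group of polynomial automorphisms of `K^{2n}`, each consisting
of symplectomorphisms, which generate a group acting infinitely transitively on `K^{2n}`.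
-/

namespace Pool.Agent.Results.MP_e86abc_ag.ThreeSymplectic

open Q47.SP Module

theorem result (K : Type*) [Field K] [CharZero K] (n : ℕ) (hn : 2 ≤ n)
    (ω : (Fin (2 * n) → K) →ₗ[K] (Fin (2 * n) → K) →ₗ[K] K)
    (halt : ∀ x, ω x x = 0) (hnd : ∀ x, (∀ y, ω x y = 0) → x = 0) :
    ∃ U : Fin 3 → Subgroup (Equiv.Perm (Fin (2 * n) → K)),
      (∀ i, IsGaSubgroup (U i)) ∧ (∀ i, ∀ φ ∈ U i, IsSymplectomorphism ω φ) ∧
        InfinitelyTransitive (U 0 ⊔ U 1 ⊔ U 2) := by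
  have hn1 : 1 ≤ n := by omega
  obtain ⟨w, hw⟩ := exists_w (n := n) ω halt hnd (by simp) hn1
  obtain ⟨e, f, hee, hff, hef⟩ := exists_sympl n (Fin (2 * n) → K) ω halt hnd (by simp)
  set v₀ := vv w 0 with hv₀
  have hv0ne : v₀ ≠ 0 := by
    rw [hv₀, vv_zero w hn1]
    exact w.ne_zero _
  obtain ⟨y₀, hy₀⟩ : ∃ y, ω v₀ y ≠ 0 := by
    by_contra hcon
    push Not at hcon
    exact hv0ne (hnd _ hcon)
  -- the three actions
  let Φ : Fin 3 → K → Equiv.Perm (Fin (2 * n) → K) := ![fun t => ggp w t,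
    fun t => sh halt v₀ (Polynomial.C t * Polynomial.X),
    fun t => sh halt v₀ (Polynomial.C t * (1 + Polynomial.X ^ 2))]
  have hΦ0 : IsGaAction (Φ 0) := gg_action hn1 w
  have hΦ1 : IsGaAction (Φ 1) := shear_action halt v₀ Polynomial.X ⟨y₀, by simpa using hy₀⟩ hv0ne
  have hΦ2 : IsGaAction (Φ 2) := shear_action halt v₀ (1 + Polynomial.X ^ 2) ⟨0, by simp⟩ hv0ne
  have hΦ : ∀ i, IsGaAction (Φ i) := by
    intro i
    fin_cases i
    · exact hΦ0
    · exact hΦ1
    · exact hΦ2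
  let U : Fin 3 → Subgroup (Equiv.Perm (Fin (2 * n) → K)) := fun i =>
    { carrier := Set.range (Φ i)
      one_mem' := ⟨0, (hΦ i).map_zero⟩
      mul_mem' := by
        rintro _ _ ⟨s, rfl⟩ ⟨t, rfl⟩
        exact ⟨s + t, (hΦ i).map_add s t⟩
      inv_mem' := by
        rintro _ ⟨s, rfl⟩
        refine ⟨-s, ?_⟩
        rw [eq_inv_iff_mul_eq_one, ← (hΦ i).map_add, neg_add_cancel, (hΦ i).map_zero] }
  have hU : ∀ i, (U i : Set (Equiv.Perm (Fin (2 * n) → K))) = Set.range (Φ i) := fun i => rfl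
  refine ⟨U, fun i => ⟨Φ i, hΦ i, hU i⟩, ?_, ?_⟩
  · -- symplectomorphisms
    intro i φ hφ
    obtain ⟨t, rfl⟩ : φ ∈ Set.range (Φ i) := hφ
    fin_cases i
    · exact symp_linear (hΦ0.isPolyAut t) (gg w t) (fun x => rfl) (gg_omega w hw hn1 t)
    · exact symp_shear halt (hΦ1.isPolyAut t) v₀ (Polynomial.C t * Polynomial.X) (fun x => rfl)
    · exact symp_shear halt (hΦ2.isPolyAut t) v₀ (Polynomial.C t * (1 + Polynomial.X ^ 2))
        (fun x => rfl)
  -- infinite transitivity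
  set G := U 0 ⊔ U 1 ⊔ U 2 with hG
  have hm0 : ∀ t, ggp w t ∈ G := fun t =>
    (le_sup_left.trans le_sup_left : U 0 ≤ G) ⟨t, rfl⟩
  have hm1 : ∀ t, sh halt v₀ (Polynomial.C t * Polynomial.X) ∈ G := fun t =>
    (le_sup_right.trans le_sup_left : U 1 ≤ G) ⟨t, rfl⟩
  have hm2 : ∀ t, sh halt v₀ (Polynomial.C t * (1 + Polynomial.X ^ 2)) ∈ G := fun t =>
    (le_sup_right : U 2 ≤ G) ⟨t, rfl⟩
  have hconj : ∀ s (p : Polynomial K), sh halt v₀ p ∈ G → sh halt (vv w s) p ∈ G := by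
    intro s p hp
    have h1 := conj_mem (hm0 s) hp
    rw [sh_conj halt (ggp w s) (fun x y => map_add (gg w s) x y)
      (fun c x => map_smul (gg w s) c x) (gg_omega w hw hn1 s)] at h1
    rwa [ggp_apply, hv₀, gg_vv, zero_add] at h1
  have hfin := fun u hu => vv_fin (ω := ω) w hnd u hu
  have hne : ∀ s t : K, s ≠ t → ω (vv w s) (vv w t) ≠ 0 := by
    intro s t hst
    rw [vv_omega w hw hn1]
    exact pow_ne_zero _ (sub_ne_zero.2 hst)
  have hT : ∀ a, a ∈ tvSet halt G := fun a =>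
    tvSet_eq_univ (vv w) (fun s t => hconj s _ (hm1 t)) hne (vv_span w) hfin a
  have hQ : ∀ (a : Fin (2 * n) → K) (t : K),
      sh halt a (Polynomial.C t * (1 + Polynomial.X ^ 2)) ∈ G := by
    intro a t
    by_cases ha : a = 0
    · rw [ha, sh_zero_left]
      exact G.one_mem
    · exact sh_transfer hnd hT hv0ne ha (hm2 t)
  have h01 : (⟨0, by omega⟩ : Fin n) ≠ ⟨1, by omega⟩ := by simp
  have hsh := all_mem hnd hT (a := e ⟨0, by omega⟩) (b := e ⟨1, by omega⟩) (c := f ⟨1, by omega⟩)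
    (by
      intro h0
      have := hef ⟨0, by omega⟩ ⟨0, by omega⟩
      rw [h0] at this
      simp at this)
    (hee _ _) (by rw [hef, if_neg h01]) (by rw [hef, if_pos rfl]) hQ
  have hgen : ∀ S : Finset (Fin (2 * n) → K), 0 ∉ S → ∃ v, ∀ u ∈ S, ω v u ≠ 0 := by
    intro S hS
    have h1 : (⋃ u ∈ S, {s : K | ω u (vv w s) = 0}).Finite :=
      S.finite_toSet.biUnion fun u hu => hfin u (fun h => hS (h ▸ hu))
    obtain ⟨s, hs⟩ := h1.exists_notMem
    refine ⟨vv w s, fun u hu h0 => hs ?_⟩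
    rw [Set.mem_iUnion₂]
    refine ⟨u, hu, ?_⟩
    rw [Set.mem_ofPred_eq, anti halt, h0, neg_zero]
  intro m _ x y hx hy
  exact inf_trans hsh hgen m x y hx hy

end Pool.Agent.Results.MP_e86abc_ag.ThreeSymplectic
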